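import Mathlib

open Polynomial Finset

namespace Pool.Agent.Results.MP_0523aa_nt.Two

/-- height: the largest absolute value of a coefficient -/
noncomputable def H (f : ℤ[X]) : ℕ := f.support.sup (fun n => (f.coeff n).natAbs)

def Bd (c : ℤ) (f : ℤ[X]) : Prop := ∀ n, |f.coeff n| ≤ c

def Lb (q : ℕ) (f : ℤ[X]) : Prop := ∀ G, Bd 1 G → Bd 1 (f * expand ℤ q G)

lemma lb_sum {q : ℕ} (hq : 0 < q) (s : Finset ℕ) (ε : ℕ → ℤ) (a : ℕ → ℕ)
    (hε : ∀ i, |ε i| ≤ 1) (ha : ∀ i ∈ s, ∀ j ∈ s, a i ≡ a j [MOD q] → i = j) :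
    Lb q (∑ i ∈ s, C (ε i) * X ^ (a i)) := by
  intro G hG n
  rw [Finset.sum_mul, finsetSum_coeff]
  have key : ∀ i, (C (ε i) * X ^ (a i) * expand ℤ q G).coeff n =
      if a i ≤ n ∧ q ∣ n - a i then ε i * G.coeff ((n - a i) / q) else 0 := by
    intro i
    rw [mul_assoc, coeff_C_mul, coeff_X_pow_mul', coeff_expand hq]
    by_cases h1 : a i ≤ n <;> by_cases h2 : q ∣ n - a i <;> simp [h1, h2]
  simp only [key]
  by_cases hex : ∃ i ∈ s, a i ≤ n ∧ q ∣ n - a i
  · obtain ⟨i, hi, h1, h2⟩ := hex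
    rw [Finset.sum_eq_single i]
    · rw [if_pos ⟨h1, h2⟩, abs_mul]
      exact mul_le_one₀ (hε i) (abs_nonneg _) (hG _)
    · intro j hj hne
      rw [if_neg]
      rintro ⟨h3, h4⟩
      apply hne
      apply ha j hj i hi
      exact ((Nat.modEq_iff_dvd' h3).2 h4).trans ((Nat.modEq_iff_dvd' h1).2 h2).symm
    · intro h; exact absurd hi h
  · rw [Finset.sum_eq_zero]
    · simp
    · intro i hi
      rw [if_neg]
      intro h
      exact hex ⟨i, hi, h⟩

section
variable {q : ℕ} (hq : q.Prime) (ho : q ≠ 2)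
include hq

lemma cv : cyclotomic q ℤ = ∑ i ∈ range q, X ^ i := by
  haveI := Fact.mk hq
  exact cyclotomic_prime ℤ q

include ho

lemma nd (j : ℕ) : ¬ 2 ∣ q ^ j := by
  intro h
  have := (Nat.prime_dvd_prime_iff_eq Nat.prime_two hq).1 (Nat.prime_two.dvd_of_dvd_pow h)
  exact ho this.symm

lemma cpair (j : ℕ) : cyclotomic (2 * q ^ j) ℤ * cyclotomic (q ^ j) ℤ
    = expand ℤ 2 (cyclotomic (q ^ j) ℤ) := by
  rw [cyclotomic_expand_eq_cyclotomic_mul Nat.prime_two (nd hq ho j), mul_comm 2]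

lemma cV : cyclotomic (2 * q) ℤ * cyclotomic q ℤ = ∑ i ∈ range q, X ^ (2 * i) := by
  have := cpair hq ho 1
  rw [pow_one] at this
  rw [this, cv hq, map_sum]
  simp [pow_mul]

lemma cw : cyclotomic (2 * q) ℤ = ∑ i ∈ range q, (-X) ^ i := by
  have hodd : Odd q := hq.odd_of_ne_two ho
  have h1 := geom_sum_mul (-X : ℤ[X]) q
  have h2 := geom_sum_mul (X : ℤ[X]) q
  have h3 := geom_sum_mul (X ^ 2 : ℤ[X]) q
  rw [hodd.neg_pow] at h1
  have h4 := cV hq ho
  simp only [pow_mul] at h4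
  rw [← h4, cv hq] at h3
  have hz : ((X : ℤ[X]) ^ q - 1) * (X + 1) ≠ 0 := by
    apply mul_ne_zero
    · exact X_pow_sub_C_ne_zero hq.pos 1
    · exact X_add_C_ne_zero 1
  apply mul_right_cancel₀ hz
  have h5 : ((X : ℤ[X]) ^ 2) ^ q = X ^ q * X ^ q := by rw [← pow_mul, two_mul, pow_add]
  rw [h5] at h3
  linear_combination h3 - (cyclotomic (2 * q) ℤ * (X + 1)) * h2 + (X ^ q - 1) * h1

omit ho in
lemma lb1 : Lb q 1 := by
  have := lb_sum hq.pos {0} (fun _ => 1) (fun _ => 0) (by simp) (by simp)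
  simpa using this

omit ho in
lemma lbv : Lb q (cyclotomic q ℤ) := by
  have := lb_sum hq.pos (range q) (fun _ => 1) (fun i => i) (by simp) (by
    intro i hi j hj h
    exact Nat.ModEq.eq_of_lt_of_lt h (mem_range.1 hi) (mem_range.1 hj))
  rw [cv hq]; simpa using this

lemma lbw : Lb q (cyclotomic (2 * q) ℤ) := by
  have := lb_sum hq.pos (range q) (fun i => (-1) ^ i) (fun i => i) (by simp) (by
    intro i hi j hj h
    exact Nat.ModEq.eq_of_lt_of_lt h (mem_range.1 hi) (mem_range.1 hj))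
  rw [cw hq ho]
  convert this using 2 with i
  rw [neg_pow]; simp

lemma lbV : Lb q (cyclotomic (2 * q) ℤ * cyclotomic q ℤ) := by
  have := lb_sum hq.pos (range q) (fun _ => 1) (fun i => 2 * i) (by simp) (by
    intro i hi j hj h
    have hc : Nat.gcd q 2 = 1 := by
      have := (Nat.coprime_primes hq Nat.prime_two).2 ho
      exact this
    exact Nat.ModEq.eq_of_lt_of_lt (Nat.ModEq.cancel_left_of_coprime hc h)
      (mem_range.1 hi) (mem_range.1 hj))
  rw [cV hq ho]; simpa using this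

end

noncomputable def c (q : ℕ) (i : ℕ × Bool) : ℤ[X] :=
  cyclotomic ((if i.2 then 2 else 1) * q ^ i.1) ℤ

noncomputable def tm (q : ℕ) (α : ℕ → Bool → Bool) (j : ℕ) : ℤ[X] :=
  (if α j true then c q (j, true) else 1) * (if α j false then c q (j, false) else 1)

section
variable {q : ℕ} (hq : q.Prime) (ho : q ≠ 2)
include hq

lemma c_exp (j : ℕ) (e : Bool) : c q (j + 2, e) = expand ℤ q (c q (j + 1, e)) := by
  unfold c
  rw [cyclotomic_expand_eq_cyclotomic hq (Dvd.intro_left ((if e then 2 else 1) * q ^ j) (by ring))]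
  congr 1; ring

lemma tm_exp (α : ℕ → Bool → Bool) (j : ℕ) :
    tm q α (j + 2) = expand ℤ q (tm q (fun k => α (k + 1)) (j + 1)) := by
  unfold tm
  rw [map_mul, c_exp hq, c_exp hq]
  congr 1 <;> split_ifs <;> simp

include ho

lemma lb_tm (α : ℕ → Bool → Bool) : Lb q (tm q α 1) := by
  have e1 : c q (1, true) = cyclotomic (2 * q) ℤ := by simp [c]
  have e2 : c q (1, false) = cyclotomic q ℤ := by simp [c]
  unfold tm
  rw [e1, e2]
  split_ifs
  · exact lbV hq ho
  · rw [mul_one]; exact lbw hq ho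
  · rw [one_mul]; exact lbv hq
  · rw [one_mul]; exact lb1 hq

lemma bd_prod (b : ℕ) : ∀ α : ℕ → Bool → Bool, Bd 1 (∏ j ∈ range b, tm q α (j + 1)) := by
  induction b with
  | zero =>
    intro α n
    simp only [range_zero, prod_empty, coeff_one]
    split_ifs <;> simp
  | succ b ih =>
    intro α
    rw [prod_range_succ']
    simp only [tm_exp hq]
    rw [← map_prod, mul_comm]
    exact lb_tm hq ho α _ (ih _)

lemma fact (b : ℕ) : ∏ i ∈ range (b + 1) ×ˢ (univ : Finset Bool), c q i = X ^ (2 * q ^ b) - 1 := by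
  rw [prod_product]
  simp only [Fintype.prod_bool, c, if_true, Bool.false_eq_true, if_false, one_mul, cpair hq ho]
  induction b with
  | zero => simp
  | succ b ih =>
    rw [prod_range_succ, ih]
    haveI := Fact.mk hq
    have := congrArg (expand ℤ 2) (cyclotomic_prime_pow_mul_X_pow_sub_one ℤ q b)
    simp only [map_mul, map_sub, map_pow, expand_X, map_one, ← pow_mul] at this
    rw [mul_comm, this]

end

lemma bd_two (a : ℕ) (e : ℤ) (he : |e| ≤ 1) (G : ℤ[X]) (hG : Bd 1 G) :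
    Bd 2 ((X ^ a + C e) * G) := by
  intro n
  rw [add_mul, coeff_add, coeff_C_mul, coeff_X_pow_mul']
  have h1 : |e * G.coeff n| ≤ 1 := by
    rw [abs_mul]; exact mul_le_one₀ he (abs_nonneg _) (hG _)
  have h2 : |(if a ≤ n then G.coeff (n - a) else 0)| ≤ 1 := by
    split_ifs
    · exact hG _
    · simp
  exact (abs_add_le _ _).trans (by linarith)

lemma bd_tm0 (q : ℕ) (α : ℕ → Bool → Bool) (G : ℤ[X]) (hG : Bd 1 G) : Bd 2 (tm q α 0 * G) := by
  unfold tm c
  simp only [pow_zero, mul_one, if_true, Bool.false_eq_true, if_false, cyclotomic_two,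
    cyclotomic_one]
  split_ifs
  · have := bd_two 2 (-1) (by simp) G hG
    convert this using 2
    simp; ring
  · have := bd_two 1 1 (by simp) G hG
    simpa using this
  · have := bd_two 1 (-1) (by simp) G hG
    convert this using 2
    simp; ring
  · intro n
    have := hG n
    simp only [one_mul]
    linarith

lemma H_le (f : ℤ[X]) (h : Bd 2 f) : H f ≤ 2 := by
  unfold H
  apply Finset.sup_le
  intro n _
  have := h n
  rw [Int.abs_eq_natAbs] at this
  exact_mod_cast this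

lemma upper {q : ℕ} (hq : q.Prime) (ho : q ≠ 2) (b : ℕ) (f : ℤ[X])
    (hf : f ∣ X ^ (2 * q ^ b) - 1) : Bd 2 f := by
  obtain ⟨g, hg⟩ := hf
  have hp : ∀ i ∈ range (b + 1) ×ˢ (univ : Finset Bool), Prime (c q i) := by
    intro i _
    apply Irreducible.prime
    apply cyclotomic.irreducible
    have := hq.pos
    split_ifs <;> positivity
  have hx : f * g = 1 * ∏ i ∈ range (b + 1) ×ˢ (univ : Finset Bool), c q i := by
    rw [one_mul, fact hq ho, hg]
  obtain ⟨t, u, b0, c0, htu, -, h1, hf, -⟩ := mul_eq_mul_prime_prod hp hx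
  have hsub : t ⊆ range (b + 1) ×ˢ (univ : Finset Bool) := htu ▸ subset_union_left
  have hpr : ∏ i ∈ t, c q i = tm q (fun j e => decide ((j, e) ∈ t)) 0 *
      ∏ j ∈ range b, tm q (fun j e => decide ((j, e) ∈ t)) (j + 1) := by
    rw [mul_comm, ← prod_range_succ']
    have : ∏ i ∈ t, c q i =
        ∏ i ∈ range (b + 1) ×ˢ (univ : Finset Bool), if i ∈ t then c q i else 1 := by
      rw [prod_ite_mem, inter_eq_right.2 hsub]
    rw [this, prod_product]
    simp [tm]
  have hb := bd_tm0 q (fun j e => decide ((j, e) ∈ t)) _ (bd_prod hq ho b (fun j e => decide ((j, e) ∈ t)))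
  rw [← hpr] at hb
  have hu : IsUnit b0 := IsUnit.of_mul_eq_one c0 h1.symm
  obtain ⟨r, hr, rfl⟩ := Polynomial.isUnit_iff.1 hu
  intro n
  rw [hf, coeff_C_mul, abs_mul]
  rcases Int.isUnit_iff.1 hr with rfl | rfl <;> simpa using hb n

theorem result (q b : ℕ) (hq : q.Prime) (ho : Odd q) (hb : 1 ≤ b) :
    IsGreatest {h : ℕ | ∃ f : ℤ[X], f ∣ X ^ (2 * q ^ b) - 1 ∧ H f = h} 2 := by
  have h2 : q ≠ 2 := by rintro rfl; exact absurd ho (by decide)
  constructor
  · have hd : (X + 1) * cyclotomic q ℤ ∣ X ^ (2 * q ^ b) - 1 := by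
      rw [← fact hq h2]
      have : (X + 1) * cyclotomic q ℤ = ∏ i ∈ ({(0, true), (1, false)} : Finset (ℕ × Bool)), c q i := by
        rw [prod_pair (by simp)]
        simp [c]
      rw [this]
      apply prod_dvd_prod_of_subset
      intro i hi
      simp only [mem_insert, mem_singleton] at hi
      rcases hi with rfl | rfl <;> simp; omega
    refine ⟨_, hd, le_antisymm (H_le _ (upper hq h2 b _ hd)) ?_⟩
    have hc : ((X + 1) * cyclotomic q ℤ).coeff 1 = 2 := by
      have h1 := hq.one_lt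
      rw [add_mul, coeff_add, one_mul, coeff_X_mul, cv hq]
      simp [finsetSum_coeff, coeff_X_pow, h1, hq.pos]
    have hm : 1 ∈ ((X + 1) * cyclotomic q ℤ).support := by
      rw [mem_support_iff, hc]; decide
    have := Finset.le_sup (f := fun n => (((X + 1) * cyclotomic q ℤ).coeff n).natAbs) hm
    simp only [hc] at this
    exact this
  · rintro h ⟨f, hf, rfl⟩
    exact H_le _ (upper hq h2 b f hf)

end Pool.Agent.Results.MP_0523aa_nt.Two
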